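import Mathlib
import Pool.Agent.helper37.NA.Spec2
import Pool.Agent.helper58.LE.MNG

/-!
# MP_baa4d7_al, THEOREM NA, row `NMP`: the main induction (all primes)
-/

set_option autoImplicit false

namespace Pool.Agent.NAB

open Pool.Agent.helper58.DC Pool.Agent.DI Pool.Agent.GR Pool.Agent.OB Pool.Agent.DR Pool.Agent.FI Pool.Agent.FI3 Pool.Agent.FI4 Pool.Agent.FI4I Pool.Agent.LE Pool.Agent.L5

theorem NMP_cast {α : Type} [Finite α] (S : Set α) (n : α → ℕ) (f : α → ℤ) (F : α → ℂ)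
    (hf : ∀ C ∈ S, ((f C : ℤ) : ℂ) = F C) :
    (((∑ᶠ C ∈ S, (-1) ^ n C * f C : ℤ)) : ℂ) = ∑ᶠ C ∈ S, (-1 : ℂ) ^ n C * F C := by
  have h1 := (Int.castRingHom ℂ).toAddMonoidHom.map_finsum_mem (fun C => (-1) ^ n C * f C) (Set.toFinite S)
  have h2 : (((∑ᶠ C ∈ S, (-1) ^ n C * f C : ℤ)) : ℂ) = ∑ᶠ C ∈ S, (((-1) ^ n C * f C : ℤ) : ℂ) := h1
  rw [h2]
  refine finsum_mem_congr rfl fun C hC => ?_
  push_cast
  rw [hf C hC]

theorem NMP (hNEG : NEG_stmt) (hNTN : NTN_stmt) (hNDV : NDV_stmt) (hNMF : NMF_stmt) (hNBP : NBP_stmt)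
    (hNXU : NXU_stmt) (hNQU : NQU_stmt) (hLBN : LBN_stmt) (hTPR : Pool.Agent.FI.TPR_stmt) : NMP_stmt := by
  intro p e m M hS hle G₀ _ _
  suffices K : ∀ k : ℕ, ∀ (G : Type) [Group G] [Finite G], Nat.card G = k → MNc p e m M G from K _ G₀ rfl
  intro k
  induction k using Nat.strong_induction_on with
  | _ k ih =>
    intro G _ _ hn χ hχ z x hU
    have hbz : 1 ≤ bz p := by unfold bz; split <;> norm_num
    have hme : m < e := by omega
    obtain ⟨R, hRop⟩ := MN4_op p hS.pr G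
    have hnR : nz R = ⊤ := top_le_iff.1 hRop.1.2.2
    by_cases hER : Eg p e z ≤ R
    · exact hNMF p e m M hS hme G χ hχ z x hU R hRop.1.2.1 hnR hER
    · have hzR : z ^ p ^ (e - 1) ∉ R := fun h => hER (((hNEG p e hS.pr G z).2.2.1 R).2 h)
      have h1 := hNTN p e m M hS hme G χ hχ z x hU R hRop hER (fun N hN =>
        ih (Nat.card N) (by
          rw [← hn]
          exact lt_of_le_of_ne (Subgroup.card_le_card_group N) (fun h => hN (Subgroup.eq_top_of_card_eq N h))) N rfl)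
      obtain ⟨t, ht⟩ := hNDV p e m M hS hme G χ hχ z x hU R hRop hzR
      have hχ' : χ ∈ IrrOn (⊤ : Subgroup G) := by rw [(hTPR p M hS G).1]; exact hχ
      obtain ⟨l₁, hl₁, h11, h12⟩ := hNBP p e m M hS (by omega) G ⊤ χ hχ' z x hU
      obtain ⟨η, hη⟩ := hNXU p e m M hS hme G ⊤ χ hχ' z x hU
      have hl := (hNQU p e m M hS hme G ⊤ (Eg p e z) χ hχ' η hη).2
      rw [top_inf_eq] at hl hη
      obtain ⟨hη1, -, z', x', hU', -⟩ := hη
      obtain ⟨l₂, hl₂, h21, h22⟩ := hNBP p e m M hS (by omega) G (nz (Eg p e z)) η hη1 z' x' hU'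
      rw [hl, hl₁, hl₂] at h1
      rw [hl, hl₁, hl₂]
      have h3 := congrArg (fun a : ℤ => (a : ℂ)) ht
      have h4 := NMP_cast {C : Finset (Subgroup G) | NCh p ⊤ R C} (fun C => C.card + 1)
        (fun C => (Nat.card (nrm C) : ℤ) * (lb p M χ (nrm C) : ℤ))
        (fun C => (Nat.card (nrm C) : ℂ) * LL p M χ (nrm C)) (fun C _ => by
          rw [← lb_eq_LL hLBN p M hS G (nrm C) χ]
          push_cast
          rfl)
      have h5 : (Nat.card G : ℂ) * (((l₁ : ℤ) - l₂ : ℤ) : ℂ) =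
          (Nat.card G : ℂ) * ((((p ^ (e - m / 2) : ℕ) : ℤ) * t : ℤ) : ℂ) := by
        have h6 : (Nat.card G : ℂ) * ((l₁ : ℂ) - (l₂ : ℂ)) =
            ((((p : ℤ) ^ (e - m / 2) * Nat.card G * t : ℤ)) : ℂ) := by
          rw [← h1, ← h4]
          exact h3
        push_cast at h6 ⊢
        rw [h6]
        ring
      have hG0 : (Nat.card G : ℂ) ≠ 0 := by exact_mod_cast Nat.card_pos.ne'
      have h7 : (l₁ : ℤ) - l₂ = ((p ^ (e - m / 2) : ℕ) : ℤ) * t := by exact_mod_cast mul_left_cancel₀ hG0 h5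
      have hp : p ^ (2 * m + bz p) ≤ p ^ (e - m / 2) := Nat.pow_le_pow_right hS.pr.pos (by omega)
      rw [MNG_num (p ^ (e - m / 2)) l₁ l₂ t h11 h21 (h12.trans hp) (h22.trans hp) h7]

end Pool.Agent.NAB
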